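import Pool.Agent.Helper74.HG.GoalsC
import Pool.Agent.Helper50.HG.DINV

/-!
# HG: the goal `BIS` (isomorphisms and the functional equation, complex coefficients)
-/

set_option autoImplicit false

open MvPolynomial

namespace Pool.Agent.Helper46.HG.BIS

open Pool.Agent.Helper74.HG
open Pool.Agent.Helper50.HG.DINV (cj cj_apply cj_mem)

theorem t : Pool.Agent.Helper74.HG.BIS := by
  intro σ τ _ _ φ hφ f b hb
  obtain ⟨P, hP, h, hh, hPN⟩ := hb
  have hc : ∀ g : MvPolynomial σ ℂ, constantCoeff (φ g) = constantCoeff g := by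
    intro g
    have h1 : (constantCoeff : MvPolynomial τ ℂ →+* ℂ).comp
        (φ : MvPolynomial σ ℂ →+* MvPolynomial τ ℂ) =
        (constantCoeff : MvPolynomial σ ℂ →+* ℂ) := by
      apply MvPolynomial.ringHom_ext
      · intro r
        rw [RingHom.comp_apply]
        show constantCoeff (φ (C r)) = constantCoeff (C r)
        have h2 : φ (C r) = C r := φ.commutes r
        rw [h2, constantCoeff_C, constantCoeff_C]
      · intro i
        rw [RingHom.comp_apply]
        show constantCoeff (φ (X i)) = constantCoeff (X i)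
        rw [constantCoeff_X]
        exact hφ i
    exact RingHom.congr_fun h1 g
  have hmem : cj φ P ∈ DSk ℂ τ := by
    rw [← DS_eq]
    exact cj_mem φ (by rw [DS_eq]; exact hP)
  refine ⟨cj φ P, hmem, φ h, by rwa [hc], fun N => ?_⟩
  rw [cj_apply, map_pow, AlgEquiv.symm_apply_apply, hPN N, map_mul, map_mul, map_pow]
  have h2 : φ (C (algebraMap ℚ ℂ (b.eval (N : ℚ)))) = C (algebraMap ℚ ℂ (b.eval (N : ℚ))) :=
    φ.commutes _
  rw [h2]

end Pool.Agent.Helper46.HG.BIS
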