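import Pool.Agent.Helper74.HG.GoalsB

/-!
# Project HG, part 4, packet BLC: from `l f` back to `f`
-/

set_option autoImplicit false

namespace Pool.Agent.Helper46.HG.BLC

open MvPolynomial Pool.Agent.Helper74.HG

variable {σ : Type}

/-- basic family `N, g ↦ l ^ (N + 1 + i) ι (q N g)` -/
noncomputable def bas (i : ℤ) (q : ℂ → Module.End ℂ (MvPolynomial σ ℂ)) :
    ℕ → MvPolynomial σ ℂ → MvPolynomial (Option σ) ℂ :=
  fun N g => X none ^ ((N : ℤ) + 1 + i).toNat * rename some (q (N : ℂ) g)

/-- the basic families which vanish if the exponent is negative -/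
def Bas (A : ℕ → MvPolynomial σ ℂ → MvPolynomial (Option σ) ℂ) : Prop :=
  ∃ (i : ℤ) (q : ℂ → Module.End ℂ (MvPolynomial σ ℂ)), q ∈ DS σ ∧
    (∀ N : ℕ, (N : ℤ) + 1 + i < 0 → q (N : ℂ) = 0) ∧ A = bas i q

/-- the expandable families -/
noncomputable def EE (σ : Type) : Submodule ℂ (ℕ → MvPolynomial σ ℂ → MvPolynomial (Option σ) ℂ) :=
  Submodule.span ℂ {A | Bas A}

/-- apply `P` to a family -/
noncomputable def app (P : ℂ → Module.End ℂ (MvPolynomial (Option σ) ℂ)) :
    (ℕ → MvPolynomial σ ℂ → MvPolynomial (Option σ) ℂ) →ₗ[ℂ]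
      (ℕ → MvPolynomial σ ℂ → MvPolynomial (Option σ) ℂ) where
  toFun A := fun N g => P (N : ℂ) (A N g)
  map_add' A B := by funext N g; simp
  map_smul' c A := by funext N g; simp

theorem app_apply (P : ℂ → Module.End ℂ (MvPolynomial (Option σ) ℂ))
    (A : ℕ → MvPolynomial σ ℂ → MvPolynomial (Option σ) ℂ) (N : ℕ) (g : MvPolynomial σ ℂ) :
    app P A N g = P (N : ℂ) (A N g) := rfl

theorem bas_mem {i : ℤ} {q : ℂ → Module.End ℂ (MvPolynomial σ ℂ)} (hq : q ∈ DS σ)
    (h : ∀ N : ℕ, (N : ℤ) + 1 + i < 0 → q (N : ℂ) = 0) : bas i q ∈ EE σ :=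
  Submodule.subset_span ⟨i, q, hq, h, rfl⟩

theorem mX_mem (j : σ) :
    (fun _ : ℂ => LinearMap.mulLeft ℂ (X j : MvPolynomial σ ℂ)) ∈ DS σ :=
  Algebra.subset_adjoin (Or.inl (Or.inl ⟨j, rfl⟩))

theorem dX_mem (j : σ) :
    (fun _ : ℂ => ((pderiv j : Derivation ℂ (MvPolynomial σ ℂ) (MvPolynomial σ ℂ)) :
          MvPolynomial σ ℂ →ₗ[ℂ] MvPolynomial σ ℂ)) ∈ DS σ :=
  Algebra.subset_adjoin (Or.inl (Or.inr ⟨j, rfl⟩))

theorem s_mem : (fun s : ℂ => s • (1 : Module.End ℂ (MvPolynomial σ ℂ))) ∈ DS σ :=
  Algebra.subset_adjoin (Or.inr rfl)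

theorem c_mem (c : ℂ) : (fun _ : ℂ => c • (1 : Module.End ℂ (MvPolynomial σ ℂ))) ∈ DS σ := by
  have := (DS σ).smul_mem (one_mem (DS σ)) c
  exact this

theorem sc_mem (c : ℂ) : (fun s : ℂ => (s + c) • (1 : Module.End ℂ (MvPolynomial σ ℂ))) ∈ DS σ := by
  have := add_mem (s_mem (σ := σ)) (c_mem (σ := σ) c)
  have e : (fun s : ℂ => (s + c) • (1 : Module.End ℂ (MvPolynomial σ ℂ))) =
      (fun s : ℂ => s • (1 : Module.End ℂ (MvPolynomial σ ℂ))) +
        fun _ : ℂ => c • (1 : Module.End ℂ (MvPolynomial σ ℂ)) := by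
    funext s
    rw [Pi.add_apply, add_smul]
  rw [e]
  exact this

theorem pd_none (y : MvPolynomial σ ℂ) :
    pderiv none (rename some y : MvPolynomial (Option σ) ℂ) = 0 := by
  induction y using MvPolynomial.induction_on with
  | C a => rw [rename_C, pderiv_C]
  | add p q hp hq => rw [map_add, map_add, hp, hq, add_zero]
  | mul_X p i hp =>
    rw [map_mul, rename_X, Derivation.leibniz, hp, pderiv_X_of_ne (Option.some_ne_none i), smul_zero,
      smul_zero, add_zero]

theorem pd_l_pow (j : σ) (m : ℕ) :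
    pderiv (some j) (X none ^ m : MvPolynomial (Option σ) ℂ) = 0 := by
  rw [Derivation.leibniz_pow, pderiv_X_of_ne (Option.some_ne_none j).symm, smul_zero, smul_zero]

/-- a linear map which maps the basic families to expandable families preserves the expandable
families -/
theorem pres_of (P : ℂ → Module.End ℂ (MvPolynomial (Option σ) ℂ))
    (h : ∀ (i : ℤ) (q : ℂ → Module.End ℂ (MvPolynomial σ ℂ)), q ∈ DS σ →
      (∀ N : ℕ, (N : ℤ) + 1 + i < 0 → q (N : ℂ) = 0) → app P (bas i q) ∈ EE σ) :
    ∀ A ∈ EE σ, app P A ∈ EE σ := by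
  intro A hA
  have : EE σ ≤ (EE σ).comap (app P) := by
    refine Submodule.span_le.2 ?_
    rintro B ⟨i, q, hq, hv, rfl⟩
    exact h i q hq hv
  exact this hA

theorem pres (P : ℂ → Module.End ℂ (MvPolynomial (Option σ) ℂ)) (hP : P ∈ DS (Option σ)) :
    ∀ A ∈ EE σ, app P A ∈ EE σ := by
  induction hP using Algebra.adjoin_induction with
  | mem P hP =>
    refine pres_of P ?_
    intro i q hq hv
    rcases hP with (⟨k, rfl⟩ | ⟨k, rfl⟩) | hP
    · cases k with
      | none =>
        have hv' : ∀ N : ℕ, (N : ℤ) + 1 + (i + 1) < 0 → q (N : ℂ) = 0 := fun N hN =>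
          hv N (by omega)
        have e : app (fun _ : ℂ => LinearMap.mulLeft ℂ (X none : MvPolynomial (Option σ) ℂ))
            (bas i q) = bas (i + 1) q := by
          funext N g
          rw [app_apply, LinearMap.mulLeft_apply]
          unfold bas
          by_cases hN : (N : ℤ) + 1 + i < 0
          · rw [hv N hN]; simp
          · rw [show ((N : ℤ) + 1 + (i + 1)).toNat = ((N : ℤ) + 1 + i).toNat + 1 by omega]
            ring
        show app (fun _ : ℂ => LinearMap.mulLeft ℂ (X none : MvPolynomial (Option σ) ℂ))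
            (bas i q) ∈ EE σ
        rw [e]
        exact bas_mem hq hv'
      | some j =>
        have e : app (fun _ : ℂ => LinearMap.mulLeft ℂ (X (some j) : MvPolynomial (Option σ) ℂ))
            (bas i q) = bas i ((fun _ : ℂ => LinearMap.mulLeft ℂ (X j : MvPolynomial σ ℂ)) * q) := by
          funext N g
          rw [app_apply, LinearMap.mulLeft_apply]
          unfold bas
          rw [Pi.mul_apply, Module.End.mul_apply, LinearMap.mulLeft_apply, map_mul, rename_X]
          ring
        show app (fun _ : ℂ => LinearMap.mulLeft ℂ (X (some j) : MvPolynomial (Option σ) ℂ))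
            (bas i q) ∈ EE σ
        rw [e]
        refine bas_mem (mul_mem (mX_mem j) hq) fun N hN => ?_
        rw [Pi.mul_apply, hv N hN, mul_zero]
    · cases k with
      | none =>
        have e : app (fun _ : ℂ => ((pderiv none : Derivation ℂ (MvPolynomial (Option σ) ℂ)
              (MvPolynomial (Option σ) ℂ)) : MvPolynomial (Option σ) ℂ →ₗ[ℂ] MvPolynomial (Option σ) ℂ))
            (bas i q) = bas (i - 1)
              ((fun s : ℂ => (s + (1 + (i : ℂ))) • (1 : Module.End ℂ (MvPolynomial σ ℂ))) * q) := by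
          funext N g
          rw [app_apply]
          show pderiv none (bas i q N g) = _
          unfold bas
          rw [Derivation.leibniz, pd_none, smul_zero, zero_add, Derivation.leibniz_pow, pderiv_X_self,
            Pi.mul_apply, Module.End.mul_apply, LinearMap.smul_apply, Module.End.one_apply, map_smul]
          by_cases hN : (N : ℤ) + 1 + i < 0
          · rw [hv N hN]; simp
          · by_cases hN0 : (N : ℤ) + 1 + i = 0
            · have h0 : ((N : ℤ) + 1 + i).toNat = 0 := by omega
              have h1 : ((N : ℂ) + (1 + (i : ℂ))) = 0 := by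
                have : (((N : ℤ) + 1 + i : ℤ) : ℂ) = 0 := by rw [hN0]; simp
                push_cast at this
                linear_combination this
              rw [h0, h1]
              simp
            · have h0 : ((N : ℤ) + 1 + (i - 1)).toNat = ((N : ℤ) + 1 + i).toNat - 1 := by omega
              have h1 : ((N : ℂ) + (1 + (i : ℂ))) = ((((N : ℤ) + 1 + i).toNat : ℕ) : ℂ) := by
                have : (((((N : ℤ) + 1 + i).toNat : ℕ) : ℤ) : ℂ) = (((N : ℤ) + 1 + i : ℤ) : ℂ) := by
                  rw [Int.toNat_of_nonneg (by omega)]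
                push_cast at this
                rw [this]
                ring
              rw [h0, h1]
              rw [smul_eq_C_mul, smul_eq_mul, nsmul_eq_mul, smul_eq_mul, mul_one]
              rw [map_natCast]
              ring
        show app (fun _ : ℂ => ((pderiv none : Derivation ℂ (MvPolynomial (Option σ) ℂ)
              (MvPolynomial (Option σ) ℂ)) : MvPolynomial (Option σ) ℂ →ₗ[ℂ] MvPolynomial (Option σ) ℂ))
            (bas i q) ∈ EE σ
        rw [e]
        refine bas_mem (mul_mem (sc_mem _) hq) fun N hN => ?_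
        rw [Pi.mul_apply]
        by_cases hN1 : (N : ℤ) + 1 + i < 0
        · rw [hv N hN1, mul_zero]
        · have h1 : ((N : ℂ) + (1 + (i : ℂ))) = 0 := by
            have h2 : (N : ℤ) + 1 + i = 0 := by omega
            have : (((N : ℤ) + 1 + i : ℤ) : ℂ) = 0 := by rw [h2]; simp
            push_cast at this
            linear_combination this
          rw [h1, zero_smul, zero_mul]
      | some j =>
        have e : app (fun _ : ℂ => ((pderiv (some j) : Derivation ℂ (MvPolynomial (Option σ) ℂ)
              (MvPolynomial (Option σ) ℂ)) : MvPolynomial (Option σ) ℂ →ₗ[ℂ] MvPolynomial (Option σ) ℂ))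
            (bas i q) = bas i
              ((fun _ : ℂ => ((pderiv j : Derivation ℂ (MvPolynomial σ ℂ) (MvPolynomial σ ℂ)) :
                MvPolynomial σ ℂ →ₗ[ℂ] MvPolynomial σ ℂ)) * q) := by
          funext N g
          rw [app_apply]
          show pderiv (some j) (bas i q N g) = _
          unfold bas
          rw [Derivation.leibniz, pd_l_pow, smul_zero, add_zero, pderiv_rename (Option.some_injective σ),
            smul_eq_mul]
          rfl
        show app (fun _ : ℂ => ((pderiv (some j) : Derivation ℂ (MvPolynomial (Option σ) ℂ)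
              (MvPolynomial (Option σ) ℂ)) : MvPolynomial (Option σ) ℂ →ₗ[ℂ] MvPolynomial (Option σ) ℂ))
            (bas i q) ∈ EE σ
        rw [e]
        refine bas_mem (mul_mem (dX_mem j) hq) fun N hN => ?_
        rw [Pi.mul_apply, hv N hN, mul_zero]
    · rw [Set.mem_singleton_iff.1 hP]
      have e : app (fun s : ℂ => s • (1 : Module.End ℂ (MvPolynomial (Option σ) ℂ))) (bas i q) =
          bas i ((fun s : ℂ => s • (1 : Module.End ℂ (MvPolynomial σ ℂ))) * q) := by
        funext N g
        rw [app_apply]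
        unfold bas
        rw [Pi.mul_apply, Module.End.mul_apply, LinearMap.smul_apply, LinearMap.smul_apply,
          Module.End.one_apply, Module.End.one_apply, map_smul, mul_smul_comm]
      rw [e]
      refine bas_mem (mul_mem s_mem hq) fun N hN => ?_
      rw [Pi.mul_apply, hv N hN, mul_zero]
  | algebraMap c =>
    intro A hA
    have e : app (algebraMap ℂ (ℂ → Module.End ℂ (MvPolynomial (Option σ) ℂ)) c) A = c • A := by
      funext N g
      rw [app_apply, Pi.algebraMap_apply, Module.algebraMap_end_apply]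
      rfl
    rw [e]
    exact Submodule.smul_mem _ c hA
  | add P Q _ _ hP hQ =>
    intro A hA
    have e : app (P + Q) A = app P A + app Q A := by
      funext N g
      rw [app_apply, Pi.add_apply, LinearMap.add_apply]
      rfl
    rw [e]
    exact add_mem (hP A hA) (hQ A hA)
  | mul P Q _ _ hP hQ =>
    intro A hA
    have e : app (P * Q) A = app P (app Q A) := by
      funext N g
      rw [app_apply, Pi.mul_apply, Module.End.mul_apply]
      rfl
    rw [e]
    exact hP _ (hQ A hA)

theorem oe_rename (y : MvPolynomial σ ℂ) :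
    optionEquivLeft ℂ σ (rename some y) = Polynomial.C y := by
  induction y using MvPolynomial.induction_on with
  | C a => rw [rename_C, optionEquivLeft_C]
  | add p q hp hq => rw [map_add, map_add, hp, hq, map_add]
  | mul_X p i hp => rw [map_mul, map_mul, hp, rename_X, optionEquivLeft_X_some, map_mul]

theorem co_bas (m k : ℕ) (y : MvPolynomial σ ℂ) :
    ((optionEquivLeft ℂ σ) (X none ^ k * rename some y)).coeff m = if m = k then y else 0 := by
  rw [map_mul, map_pow, optionEquivLeft_X_none, oe_rename, mul_comm, Polynomial.coeff_C_mul_X_pow]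

theorem extract (A : ℕ → MvPolynomial σ ℂ → MvPolynomial (Option σ) ℂ) (hA : A ∈ EE σ) :
    ∃ q ∈ DS σ, ∀ (N : ℕ) (g : MvPolynomial σ ℂ),
      ((optionEquivLeft ℂ σ) (A N g)).coeff N = q (N : ℂ) g := by
  induction hA using Submodule.span_induction with
  | mem A hA =>
    obtain ⟨i, q, hq, hv, rfl⟩ := hA
    by_cases hi : i = -1
    · refine ⟨q, hq, fun N g => ?_⟩
      unfold bas
      rw [co_bas, if_pos (by omega)]
    · refine ⟨0, zero_mem _, fun N g => ?_⟩
      unfold bas
      rw [co_bas]
      split_ifs with hN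
      · rw [hv N (by omega)]; rfl
      · rfl
  | zero => exact ⟨0, zero_mem _, fun N g => by simp⟩
  | add A B _ _ hA hB =>
    obtain ⟨q, hq, h1⟩ := hA
    obtain ⟨r, hr, h2⟩ := hB
    refine ⟨q + r, add_mem hq hr, fun N g => ?_⟩
    rw [Pi.add_apply, Pi.add_apply, map_add, Polynomial.coeff_add, h1, h2]
    rfl
  | smul c A _ hA =>
    obtain ⟨q, hq, h1⟩ := hA
    refine ⟨c • q, (DS σ).smul_mem hq c, fun N g => ?_⟩
    rw [Pi.smul_apply, Pi.smul_apply, map_smul, Polynomial.coeff_smul, h1]
    rfl

theorem cc_eq (h : MvPolynomial (Option σ) ℂ) :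
    constantCoeff (((optionEquivLeft ℂ σ) h).coeff 0) = constantCoeff h := by
  have : ((constantCoeff : MvPolynomial σ ℂ →+* ℂ).comp
      ((Polynomial.constantCoeff : Polynomial (MvPolynomial σ ℂ) →+* MvPolynomial σ ℂ).comp
        ((optionEquivLeft ℂ σ : MvPolynomial (Option σ) ℂ ≃ₐ[ℂ] Polynomial (MvPolynomial σ ℂ)) :
          MvPolynomial (Option σ) ℂ →+* Polynomial (MvPolynomial σ ℂ)))) =
      (constantCoeff : MvPolynomial (Option σ) ℂ →+* ℂ) := by
    apply MvPolynomial.ringHom_ext
    · intro r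
      simp [optionEquivLeft_C]
    · intro k
      cases k with
      | none => simp [optionEquivLeft_X_none]
      | some j => simp [optionEquivLeft_X_some]
  exact RingHom.congr_fun this h

theorem t : Pool.Agent.Helper74.HG.BLC := by
  intro σ _ f b hb
  obtain ⟨P, hP, h, hh, hPN⟩ := hb
  have h0 : bas 0 (1 : ℂ → Module.End ℂ (MvPolynomial σ ℂ)) ∈ EE σ :=
    bas_mem (one_mem _) fun N hN => absurd hN (by omega)
  obtain ⟨q, hq, hqN⟩ := extract _ (pres P hP _ h0)
  refine ⟨q, hq, ((optionEquivLeft ℂ σ) h).coeff 0, by rw [cc_eq]; exact hh, fun N => ?_⟩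
  rw [← hqN N (f ^ (N + 1)), app_apply]
  have e1 : bas 0 (1 : ℂ → Module.End ℂ (MvPolynomial σ ℂ)) N (f ^ (N + 1)) = lf f ^ (N + 1) := by
    unfold bas lf
    rw [show ((N : ℤ) + 1 + 0).toNat = N + 1 by omega, Pi.one_apply, Module.End.one_apply, map_pow,
      mul_pow]
  rw [e1, hPN N]
  unfold lf
  rw [map_mul, map_mul, optionEquivLeft_C, map_pow, map_mul, optionEquivLeft_X_none, oe_rename, mul_pow,
    ← Polynomial.C_pow]
  rw [show Polynomial.C (C (b.eval (N : ℂ))) * (optionEquivLeft ℂ σ) h *
      (Polynomial.X ^ N * Polynomial.C (f ^ N)) =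
      Polynomial.C (C (b.eval (N : ℂ)) * f ^ N) * ((optionEquivLeft ℂ σ) h * Polynomial.X ^ N) by
    rw [map_mul]; ring]
  rw [Polynomial.coeff_C_mul]
  have e2 := Polynomial.coeff_mul_X_pow ((optionEquivLeft ℂ σ) h) N 0
  rw [zero_add] at e2
  rw [e2]
  ring

end Pool.Agent.Helper46.HG.BLC
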